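import Pool.Agent.Helper62.LH.StA

/-!
# Project LH, module BO: the weighted Bochner inequality
-/

set_option autoImplicit false
set_option maxSynthPendingDepth 3

open Set Filter Topology MeasureTheory
open scoped ContDiff ENNReal

noncomputable section

namespace Pool.Agent.Helper86.LH

open Helper62.LH

theorem coord_cd {n : ℕ} {k : WithTop ℕ∞} {F : E n → E n} (hF : ContDiff ℝ k F) (i : Fin n) :
    ContDiff ℝ k (fun x => (F x) i) := contDiff_euclidean.1 hF i

theorem dvf_eq {n : ℕ} (Γ : E n → Bm n) (f : E n → ℝ) (X : E n → E n) (x : E n) :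
    dvf Γ f X x = ∑ i, (fderiv ℝ X x (ee i) + Γ x (ee i) (X x)) i - fderiv ℝ f x (X x) := by
  simp only [dvf, cX, add_apply, ContinuousLinearMap.flip_apply]

theorem dvf_smooth {n : ℕ} {k : WithTop ℕ∞} (Γ : E n → Bm n) (hΓ : ContDiff ℝ k Γ)
    (f : E n → ℝ) (hf : ContDiff ℝ k (fun x => fderiv ℝ f x)) (X : E n → E n)
    (hX : ContDiff ℝ k X) (hX1 : ContDiff ℝ k (fun x => fderiv ℝ X x)) :
    ContDiff ℝ k (dvf Γ f X) := by
  have e : dvf Γ f X = fun x => ∑ i, (fderiv ℝ X x (ee i) + Γ x (ee i) (X x)) i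
      - fderiv ℝ f x (X x) := by
    funext x; exact dvf_eq Γ f X x
  rw [e]
  refine ContDiff.sub (ContDiff.sum fun i _ => coord_cd ?_ i) (hf.clm_apply hX)
  exact (hX1.clm_apply contDiff_const).add ((hΓ.clm_apply contDiff_const).clm_apply hX)

theorem dvf_zero {n : ℕ} (Γ : E n → Bm n) (f : E n → ℝ) (X : E n → E n) (x : E n)
    (hx : x ∉ tsupport X) : dvf Γ f X x = 0 := by
  have h1 : X x = 0 := image_eq_zero_of_notMem_tsupport hx
  have h2 : fderiv ℝ X x = 0 := by
    have := (support_fderiv_subset (𝕜 := ℝ) (f := X))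
    by_contra hne
    exact hx (this hne)
  rw [dvf_eq, h1, h2]
  simp

theorem cX_smooth {n : ℕ} (Γ : E n → Bm n) (hΓ : ContDiff ℝ ∞ Γ) (X : E n → E n)
    (hX : ContDiff ℝ ∞ X) : ContDiff ℝ ∞ (fun y => cX Γ X y (X y)) := by
  have hX1 : ContDiff ℝ ∞ (fun x => fderiv ℝ X x) := hX.fderiv_right (by simp)
  have e : (fun y => cX Γ X y (X y)) = fun y => fderiv ℝ X y (X y) + Γ y (X y) (X y) := by
    funext y
    simp only [cX, add_apply, ContinuousLinearMap.flip_apply]
  rw [e]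
  exact (hX1.clm_apply hX).add ((hΓ.clm_apply hX).clm_apply hX)

theorem cB_apply {n : ℕ} (Γ : E n → Bm n) (θ : E n → Dl n) (x u v : E n) :
    cB Γ θ x u v = cf Γ θ x u v := by
  simp [cB, cf]

theorem dB_apply {n : ℕ} (θ : E n → Dl n) (x u v : E n) :
    dB θ x u v = dd θ x u v := by
  simp [dB, dd]

theorem cB_cont {n : ℕ} (Γ : E n → Bm n) (hΓ : Continuous Γ) (θ : E n → Dl n)
    (hθ : ContDiff ℝ ∞ θ) : Continuous (cB Γ θ) := by
  have h1 : Continuous (fun x => fderiv ℝ θ x) := hθ.continuous_fderiv (by simp)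
  have h2 := hθ.continuous
  unfold cB
  exact h1.sub (((ContinuousLinearMap.compL ℝ (E n) (E n) ℝ).continuous.comp h2).clm_comp hΓ)

theorem dB_cont {n : ℕ} (θ : E n → Dl n)
    (hθ : ContDiff ℝ ∞ θ) : Continuous (dB θ) := by
  have h1 : Continuous (fun x => fderiv ℝ θ x) := hθ.continuous_fderiv (by simp)
  unfold dB
  exact h1.sub ((ContinuousLinearMap.flipₗᵢ ℝ (E n) (E n) ℝ).continuous.comp h1)

theorem N2_eq {n : ℕ} (g : E n → Bl n) (Γ : E n → Bm n) (θ : E n → Dl n) (x : E n) :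
    N2 g Γ θ x = iB g x (fun u v => cB Γ θ x u v) (fun u v => cB Γ θ x u v) := by
  simp only [N2, nB, iB, cB_apply]

theorem nBdd_eq {n : ℕ} (g : E n → Bl n) (θ : E n → Dl n) (x : E n) :
    nB g x (dd θ x) = iB g x (fun u v => dB θ x u v) (fun u v => dB θ x u v) := by
  simp only [nB, iB, dB_apply]


theorem bo_alg (hTr : StTr) (hInb : StInb) (hShp : StShp) {n : ℕ} {g : E n → Bl n}
    {Γ : E n → Bm n} (hg : IsMet g) (hc : IsChr g Γ) (hsym : ∀ x u v, Γ x u v = Γ x v u)
    (f : E n → ℝ) (θ : E n → Dl n) (hθ : ContDiff ℝ ∞ θ) (x : E n) (b : Fin n → E n)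
    (hb : Onb g x b) :
    (∑ i, (cX Γ (fun y => shp g y (θ y)) x (cX Γ (fun y => shp g y (θ y)) x (ee i))) i
      = N2 g Γ θ x - nB g x (dd θ x) / 2) ∧
    dvf Γ f (fun y => shp g y (θ y)) x = dl g Γ f θ x ∧
    g x (shp g x (θ x)) (shp g x (θ x)) = ip g x (θ x) (θ x) := by
  obtain ⟨hs1, hs2, hs3, hs4, hs5, hs6⟩ := hShp n g Γ hg hc
  obtain ⟨ht1, ht2, ht3, ht4, ht5⟩ := hTr n g hg x b hb
  obtain ⟨-, -, -, -, -, -, -, hi8⟩ := hInb n g hg x
  have hL : ∀ u v, g x (cX Γ (fun y => shp g y (θ y)) x u) v = cB Γ θ x u v := by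
    intro u v
    have h := hs6 θ (hθ.of_le (by simp)) x u v
    rw [cB_apply, ← h]
    simp only [cX, add_apply, ContinuousLinearMap.flip_apply]
  generalize hLd : cX Γ (fun y => shp g y (θ y)) x = L at hL
  have hdd : dd θ x = fun u v => cB Γ θ x u v - cB Γ θ x v u := by
    funext u v
    rw [cB_apply, cB_apply, cf, cf, dd, hsym x v u]
    ring
  have hcf : (fun u v => cB Γ θ x u v) = cf Γ θ x := by
    funext u v; exact cB_apply Γ θ x u v
  refine ⟨?_, ?_, ?_⟩
  · have e1 : ∑ i, (L (L (ee i))) i = ∑ i, g x (L (L (b i))) (b i) := by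
      have h := ht5 (L.comp L)
      simpa using h
    have e2 : ∀ i, g x (L (L (b i))) (b i) = ∑ j, cB Γ θ x (b i) (b j) * cB Γ θ x (b j) (b i) := by
      intro i
      rw [hL]
      conv_lhs => rw [← hb.expd (L (b i))]
      simp only [map_sum, map_smul, FunLike.coe_sum, Finset.sum_apply,
        FunLike.coe_smul, Pi.smul_apply, smul_eq_mul, hL]
    have e3 := ht3 (cB Γ θ x) (cB Γ θ x).flip
    simp only [ContinuousLinearMap.flip_apply] at e3
    have e4 := hi8 (cB Γ θ x)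
    rw [e1, Finset.sum_congr rfl (fun i _ => e2 i), ← e3, hdd, N2, ← hcf]
    linarith
  · have e1 : ∑ i, (L (ee i)) i = trg g x (cf Γ θ x) := by
      rw [ht5 L, ← hcf, ht1 (cB Γ θ x)]
      simp only [hL]
    rw [dvf, hLd, e1, dl, hs2]
  · rw [hs1, ← hs2]


/-- BO: weighted Bochner inequality -/
theorem hBo (hChr : StChr) (hOnb : StOnb) (hTr : StTr) (hInb : StInb) (hShp : StShp)
    (hUt : StUt) (hRic : StRic) (hDiv : StDiv) (hPtw : StPtw) : StBo := by
  intro n g Γ hg hc hsec f ε hf hH θ hθ hcs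
  obtain ⟨hΓ, hsym, -⟩ := hChr n g Γ hg hc
  have hs4 := (hShp n g Γ hg hc).2.2.2.1
  obtain ⟨hu1, hu2, hu3, hu4, -, -⟩ := hUt n g hg
  have hX : ContDiff ℝ ∞ (fun y => shp g y (θ y)) := hs4 θ hθ
  have hXcs : HasCompactSupport (fun y => shp g y (θ y)) := by
    refine HasCompactSupport.intro (K := tsupport θ) hcs (fun x hx => ?_)
    simp [image_eq_zero_of_notMem_tsupport hx, shp]
  have halg := fun x b hb => bo_alg hTr hInb hShp hg hc hsym f θ hθ x b hb
  have hptw := hPtw n Γ hΓ hsym (fun y => shp g y (θ y)) f hX hf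
  have hX1 : ContDiff ℝ ∞ (fun x => fderiv ℝ (fun y => shp g y (θ y)) x) :=
    hX.fderiv_right (by simp)
  have hf1 : ContDiff ℝ ∞ (fun x => fderiv ℝ f x) := hf.fderiv_right (by simp)
  have hφ : ContDiff ℝ ∞ (dvf Γ f (fun y => shp g y (θ y))) :=
    dvf_smooth Γ hΓ f hf1 _ hX hX1
  have hdlc : Continuous (dl g Γ f θ) := by
    have e : dl g Γ f θ = dvf Γ f (fun y => shp g y (θ y)) := by
      funext x
      obtain ⟨b, hb⟩ := hOnb n g hg x
      exact (halg x b hb).2.1.symm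
    rw [e]; exact hφ.continuous
  have hY : ContDiff ℝ ∞ (fun y => dvf Γ f (fun y => shp g y (θ y)) y • shp g y (θ y)
      - cX Γ (fun y => shp g y (θ y)) y (shp g y (θ y))) :=
    (hφ.smul hX).sub (cX_smooth Γ hΓ _ hX)
  have hYcs : HasCompactSupport (fun y => dvf Γ f (fun y => shp g y (θ y)) y • shp g y (θ y)
      - cX Γ (fun y => shp g y (θ y)) y (shp g y (θ y))) := by
    refine HasCompactSupport.intro (K := tsupport (fun y => shp g y (θ y))) hXcs
      (fun x hx => ?_)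
    have h0 : shp g x (θ x) = 0 :=
      image_eq_zero_of_notMem_tsupport (f := fun y => shp g y (θ y)) hx
    rw [h0]; simp
  have hdiv := hDiv n g Γ hg hc f hf _ (hY.of_le (by simp)) hYcs
  have hW : Continuous (fun x => Real.exp (-f x) * vol g x) :=
    (Real.continuous_exp.comp hf.continuous.neg).mul hu3
  have hWpos : ∀ x, 0 ≤ Real.exp (-f x) * vol g x :=
    fun x => (mul_pos (Real.exp_pos _) (hu4 x)).le
  -- continuity
  have cN : Continuous (fun x => N2 g Γ θ x) := by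
    simp only [N2_eq]
    exact hu2 _ _ (cB_cont Γ hΓ.continuous θ hθ) (cB_cont Γ hΓ.continuous θ hθ)
  have cD : Continuous (fun x => nB g x (dd θ x)) := by
    simp only [nBdd_eq]
    exact hu2 _ _ (dB_cont θ hθ) (dB_cont θ hθ)
  have cI : Continuous (fun x => ip g x (θ x) (θ x)) := hu1 _ _ hθ.continuous hθ.continuous
  have z1 : ∀ x, x ∉ tsupport θ → θ x = 0 := fun x hx => image_eq_zero_of_notMem_tsupport hx
  have z2 : ∀ x, x ∉ tsupport θ → fderiv ℝ θ x = 0 := by
    intro x hx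
    by_contra hne
    exact hx (support_fderiv_subset (𝕜 := ℝ) (f := θ) hne)
  have iA : Integrable (fun x => (N2 g Γ θ x - ε * ip g x (θ x) (θ x)) *
      (Real.exp (-f x) * vol g x)) := by
    refine Continuous.integrable_of_hasCompactSupport
      ((cN.sub (continuous_const.mul cI)).mul hW)
      (HasCompactSupport.intro (K := tsupport θ) hcs (fun x hx => ?_))
    simp [N2, nB, trg, cf, ip, z1 x hx, z2 x hx]
  have iB' : Integrable (fun x => (nB g x (dd θ x) / 2 + dl g Γ f θ x ^ 2) *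
      (Real.exp (-f x) * vol g x)) := by
    refine Continuous.integrable_of_hasCompactSupport
      (((cD.div_const 2).add (hdlc.pow 2)).mul hW)
      (HasCompactSupport.intro (K := tsupport θ) hcs (fun x hx => ?_))
    simp [dl, nB, trg, cf, dd, ip, z1 x hx, z2 x hx]
  have iC : Integrable (fun x => dvf Γ f (fun y => dvf Γ f (fun y => shp g y (θ y)) y •
      shp g y (θ y) - cX Γ (fun y => shp g y (θ y)) y (shp g y (θ y))) x *
      (Real.exp (-f x) * vol g x)) := by
    have hc' := (dvf_smooth Γ hΓ f hf1 _ hY (hY.fderiv_right (by simp))).continuous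
    refine Continuous.integrable_of_hasCompactSupport (hc'.mul hW)
      (HasCompactSupport.intro hYcs (fun x hx => ?_))
    rw [dvf_zero Γ f _ x hx, zero_mul]
  -- the inequality
  have key : ∀ x, (N2 g Γ θ x - ε * ip g x (θ x) (θ x)) * (Real.exp (-f x) * vol g x) ≤
      (nB g x (dd θ x) / 2 + dl g Γ f θ x ^ 2) * (Real.exp (-f x) * vol g x) -
      dvf Γ f (fun y => dvf Γ f (fun y => shp g y (θ y)) y •
      shp g y (θ y) - cX Γ (fun y => shp g y (θ y)) y (shp g y (θ y))) x *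
      (Real.exp (-f x) * vol g x) := by
    intro x
    obtain ⟨b, hb⟩ := hOnb n g hg x
    obtain ⟨a1, a2, a3⟩ := halg x b hb
    have hr := hRic n g Γ hg hc hsec x (shp g x (θ x))
    have hh := hH x (shp g x (θ x))
    rw [a3] at hh
    have hp := hptw x
    simp only [a1, a2] at hp
    rw [← sub_mul]
    refine mul_le_mul_of_nonneg_right ?_ (hWpos x)
    linarith
  calc ∫ x, (N2 g Γ θ x - ε * ip g x (θ x) (θ x)) * (Real.exp (-f x) * vol g x)
      ≤ ∫ x, ((nB g x (dd θ x) / 2 + dl g Γ f θ x ^ 2) * (Real.exp (-f x) * vol g x) -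
        dvf Γ f (fun y => dvf Γ f (fun y => shp g y (θ y)) y •
        shp g y (θ y) - cX Γ (fun y => shp g y (θ y)) y (shp g y (θ y))) x *
        (Real.exp (-f x) * vol g x)) := integral_mono iA (iB'.sub iC) key
    _ = ∫ x, (nB g x (dd θ x) / 2 + dl g Γ f θ x ^ 2) * (Real.exp (-f x) * vol g x) := by
      rw [integral_sub iB' iC, hdiv, sub_zero]

end Pool.Agent.Helper86.LH
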