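import Pool.Agent.Helper62.LH.StG

/-!
Project LH, module SV: second variation at one time.
-/

set_option autoImplicit false
set_option maxSynthPendingDepth 3

open Set Filter Topology
open scoped ContDiff

noncomputable section

namespace Pool.Agent.Helper86.LH

open Helper62.LH

/-- smooth functions are Lipschitz on balls -/
lemma lipBall {V W : Type} [NormedAddCommGroup V] [NormedSpace ℝ V] [FiniteDimensional ℝ V]
    [NormedAddCommGroup W] [NormedSpace ℝ W] (f : V → W) (hf : ContDiff ℝ ∞ f) (R : ℝ) :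
    ∃ C : ℝ, 0 ≤ C ∧ ∀ x y : V, ‖x‖ ≤ R → ‖y‖ ≤ R → ‖f y - f x‖ ≤ C * ‖y - x‖ := by
  have hcpt : IsCompact (Metric.closedBall (0 : V) R) := isCompact_closedBall _ _
  have hcont : Continuous (fderiv ℝ f) := hf.continuous_fderiv (by simp)
  obtain ⟨C, hC⟩ := hcpt.exists_bound_of_continuousOn hcont.continuousOn
  refine ⟨max C 0, le_max_right _ _, fun x y hx hy => ?_⟩
  have hdiff : Differentiable ℝ f := hf.differentiable (by simp)
  exact Convex.norm_image_sub_le_of_norm_fderiv_le (fun z _ => hdiff z)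
    (fun z hz => (hC z hz).trans (le_max_left _ _)) (convex_closedBall _ _)
    (by simpa using hx) (by simpa using hy)

/-- Taylor formula with a Lipschitz second derivative -/
lemma taylor2 (f f1 f2 : ℝ → ℝ) (h1 : ∀ t, HasDerivAt f (f1 t) t)
    (h2 : ∀ t, HasDerivAt f1 (f2 t) t) (C : ℝ) (hC0 : 0 ≤ C)
    (hC : ∀ t : ℝ, |t| ≤ 1 → |f2 t - f2 0| ≤ C * |t|) (τ : ℝ) (hτ : |τ| ≤ 1) :
    |f τ - f 0 - τ * f1 0 - τ ^ 2 / 2 * f2 0| ≤ C * |τ| ^ 3 := by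
  have hseg : ∀ t ∈ segment ℝ (0 : ℝ) τ, |t| ≤ |τ| := by
    intro t ht
    obtain ⟨a, b, ha, hb, hab, rfl⟩ := ht
    rw [smul_zero, zero_add, smul_eq_mul, abs_mul, abs_of_nonneg hb]
    have : b ≤ 1 := by linarith
    exact mul_le_of_le_one_left (abs_nonneg _) this
  have hh : ∀ t ∈ segment ℝ (0 : ℝ) τ, |f1 t - f1 0 - t * f2 0| ≤ C * |τ| * |τ| := by
    intro t ht
    have hd : ∀ x ∈ segment ℝ (0 : ℝ) t,
        HasDerivWithinAt (fun x => f1 x - f1 0 - x * f2 0) (f2 x - f2 0) (segment ℝ 0 t) x := by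
      intro x _
      have h3 := ((h2 x).sub_const (f1 0)).sub ((hasDerivAt_id x).mul_const (f2 0))
      simp only [one_mul] at h3
      exact h3.hasDerivWithinAt
    have hb : ∀ x ∈ segment ℝ (0 : ℝ) t, ‖f2 x - f2 0‖ ≤ C * |τ| := by
      intro x hx
      have hxt : x ∈ segment ℝ (0 : ℝ) τ :=
        (convex_segment (0 : ℝ) τ).segment_subset (left_mem_segment _ _ _) ht hx
      have h4 := hseg x hxt
      rw [Real.norm_eq_abs]
      exact (hC x (h4.trans hτ)).trans (mul_le_mul_of_nonneg_left h4 hC0)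
    have h5 := Convex.norm_image_sub_le_of_norm_hasDerivWithin_le hd hb (convex_segment _ _)
      (left_mem_segment _ _ _) (right_mem_segment _ _ _)
    simp only [zero_mul, sub_zero, sub_self, Real.norm_eq_abs] at h5
    exact h5.trans (mul_le_mul_of_nonneg_left (hseg t ht) (mul_nonneg hC0 (abs_nonneg _)))
  have hd : ∀ x ∈ segment ℝ (0 : ℝ) τ,
      HasDerivWithinAt (fun x => f x - f 0 - x * f1 0 - x ^ 2 / 2 * f2 0)
        (f1 x - f1 0 - x * f2 0) (segment ℝ 0 τ) x := by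
    intro x _
    have h3 := (((h1 x).sub_const (f 0)).sub ((hasDerivAt_id x).mul_const (f1 0))).sub
      ((((hasDerivAt_id x).pow 2).div_const 2).mul_const (f2 0))
    have h4 : f1 x - 1 * f1 0 - ((2 : ℕ) * id x ^ (2 - 1) * 1) / 2 * f2 0 =
        f1 x - f1 0 - x * f2 0 := by
      simp only [id]
      push_cast
      ring
    have h5 : HasDerivAt (fun x => f x - f 0 - x * f1 0 - x ^ 2 / 2 * f2 0)
        (f1 x - 1 * f1 0 - ((2 : ℕ) * id x ^ (2 - 1) * 1) / 2 * f2 0) x := h3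
    rw [h4] at h5
    exact h5.hasDerivWithinAt
  have h5 := Convex.norm_image_sub_le_of_norm_hasDerivWithin_le hd
    (fun x hx => by rw [Real.norm_eq_abs]; exact hh x hx) (convex_segment _ _)
    (left_mem_segment _ _ _) (right_mem_segment _ _ _)
  simp only [zero_mul, sub_zero, sub_self, Real.norm_eq_abs] at h5
  have h6 : |f τ - f 0 - τ * f1 0 - τ ^ 2 / 2 * f2 0| ≤ C * |τ| * |τ| * |τ| := by
    have h7 : (0 : ℝ) ^ 2 / 2 * f2 0 = 0 := by ring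
    rw [h7, sub_zero, sub_zero] at h5
    exact h5
  calc _ ≤ C * |τ| * |τ| * |τ| := h6
    _ = C * |τ| ^ 3 := by ring

section

variable {V : Type} [NormedAddCommGroup V] [NormedSpace ℝ V]

/-- the coefficient of the second order term of the velocity -/
def c0 (Γ : V → V →L[ℝ] V →L[ℝ] V) (D : V → V →L[ℝ] V →L[ℝ] V →L[ℝ] V) (s u a b : V) : V :=
  D s u a a + (2 : ℝ) • Γ s a b

/-- position -/
def qq (Γ : V → V →L[ℝ] V →L[ℝ] V) (s a : V) (τ : ℝ) : V := s + τ • a - (τ ^ 2 / 2) • Γ s a a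

/-- derivative of the position -/
def qq1 (Γ : V → V →L[ℝ] V →L[ℝ] V) (s a : V) (τ : ℝ) : V := a - τ • Γ s a a

/-- velocity -/
def rr (Γ : V → V →L[ℝ] V →L[ℝ] V) (D : V → V →L[ℝ] V →L[ℝ] V →L[ℝ] V) (s u a b : V)
    (τ : ℝ) : V := u + τ • b - (τ ^ 2 / 2) • c0 Γ D s u a b

/-- derivative of the velocity -/
def rr1 (Γ : V → V →L[ℝ] V →L[ℝ] V) (D : V → V →L[ℝ] V →L[ℝ] V →L[ℝ] V) (s u a b : V)
    (τ : ℝ) : V := b - τ • c0 Γ D s u a b

/-- covariant derivative of the velocity -/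
def PP (Γ : V → V →L[ℝ] V →L[ℝ] V) (D : V → V →L[ℝ] V →L[ℝ] V →L[ℝ] V) (s u a b : V)
    (τ : ℝ) : V := rr1 Γ D s u a b τ + Γ (qq Γ s a τ) (qq1 Γ s a τ) (rr Γ D s u a b τ)

/-- ordinary derivative of `PP` -/
def PP1 (Γ : V → V →L[ℝ] V →L[ℝ] V) (D : V → V →L[ℝ] V →L[ℝ] V →L[ℝ] V) (s u a b : V)
    (τ : ℝ) : V :=
  - c0 Γ D s u a b + (D (qq Γ s a τ) (qq1 Γ s a τ) (qq1 Γ s a τ) (rr Γ D s u a b τ)
    - Γ (qq Γ s a τ) (Γ s a a) (rr Γ D s u a b τ)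
    + Γ (qq Γ s a τ) (qq1 Γ s a τ) (rr1 Γ D s u a b τ))

/-- second derivative of the energy -/
def SS (g : V → V →L[ℝ] V →L[ℝ] ℝ) (Γ : V → V →L[ℝ] V →L[ℝ] V)
    (D : V → V →L[ℝ] V →L[ℝ] V →L[ℝ] V) (s u a b : V) (τ : ℝ) : ℝ :=
  g (qq Γ s a τ) (PP Γ D s u a b τ) (PP Γ D s u a b τ) +
  g (qq Γ s a τ) (rr Γ D s u a b τ) (PP1 Γ D s u a b τ +
    Γ (qq Γ s a τ) (qq1 Γ s a τ) (PP Γ D s u a b τ))

lemma smooth_SS (g : V → V →L[ℝ] V →L[ℝ] ℝ) (Γ : V → V →L[ℝ] V →L[ℝ] V)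
    (D : V → V →L[ℝ] V →L[ℝ] V →L[ℝ] V)
    (hg : ContDiff ℝ ∞ g) (hΓ : ContDiff ℝ ∞ Γ) (hD : ContDiff ℝ ∞ D) :
    ContDiff ℝ ∞ (fun z : (V × V × V × V) × ℝ =>
      SS g Γ D z.1.1 z.1.2.1 z.1.2.2.1 z.1.2.2.2 z.2) := by
  unfold SS PP1 PP rr1 rr qq1 qq c0
  fun_prop

lemma cont_qr (Γ : V → V →L[ℝ] V →L[ℝ] V) (D : V → V →L[ℝ] V →L[ℝ] V →L[ℝ] V)
    (hΓ : ContDiff ℝ ∞ Γ) (hD : ContDiff ℝ ∞ D) :
    Continuous (fun z : (V × V × V × V) × ℝ =>
      (qq Γ z.1.1 z.1.2.2.1 z.2, rr Γ D z.1.1 z.1.2.1 z.1.2.2.1 z.1.2.2.2 z.2)) := by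
  have hΓ' := hΓ.continuous
  have hD' := hD.continuous
  unfold rr qq c0
  fun_prop

lemma hd_qq (Γ : V → V →L[ℝ] V →L[ℝ] V) (s a : V) (τ : ℝ) :
    HasDerivAt (qq Γ s a) (qq1 Γ s a τ) τ := by
  have h1 : HasDerivAt (fun t : ℝ => t • a) ((1 : ℝ) • a) τ := (hasDerivAt_id τ).smul_const a
  have h2 : HasDerivAt (fun t : ℝ => (t ^ 2 / 2) • Γ s a a) (τ • Γ s a a) τ := by
    have h3 : HasDerivAt (fun t : ℝ => t ^ 2 / 2) τ τ := by
      have h4 := ((hasDerivAt_id τ).pow 2).div_const 2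
      have h5 : ((2 : ℕ) * id τ ^ (2 - 1) * 1) / 2 = τ := by
        simp only [id]
        push_cast
        ring
      rw [h5] at h4
      exact h4
    exact h3.smul_const _
  have h6 := (h1.const_add s).sub h2
  rw [one_smul] at h6
  exact h6

lemma hd_rr (Γ : V → V →L[ℝ] V →L[ℝ] V) (D : V → V →L[ℝ] V →L[ℝ] V →L[ℝ] V)
    (s u a b : V) (τ : ℝ) :
    HasDerivAt (rr Γ D s u a b) (rr1 Γ D s u a b τ) τ := by
  have h1 : HasDerivAt (fun t : ℝ => t • b) ((1 : ℝ) • b) τ := (hasDerivAt_id τ).smul_const b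
  have h2 : HasDerivAt (fun t : ℝ => (t ^ 2 / 2) • c0 Γ D s u a b) (τ • c0 Γ D s u a b) τ := by
    have h3 : HasDerivAt (fun t : ℝ => t ^ 2 / 2) τ τ := by
      have h4 := ((hasDerivAt_id τ).pow 2).div_const 2
      have h5 : ((2 : ℕ) * id τ ^ (2 - 1) * 1) / 2 = τ := by
        simp only [id]
        push_cast
        ring
      rw [h5] at h4
      exact h4
    exact h3.smul_const _
  have h6 := (h1.const_add u).sub h2
  rw [one_smul] at h6
  exact h6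

lemma hd_qq1 (Γ : V → V →L[ℝ] V →L[ℝ] V) (s a : V) (τ : ℝ) :
    HasDerivAt (qq1 Γ s a) (- Γ s a a) τ := by
  have h1 : HasDerivAt (fun t : ℝ => t • Γ s a a) ((1 : ℝ) • Γ s a a) τ :=
    (hasDerivAt_id τ).smul_const _
  have h6 := h1.const_sub a
  rw [one_smul] at h6
  exact h6

lemma hd_rr1 (Γ : V → V →L[ℝ] V →L[ℝ] V) (D : V → V →L[ℝ] V →L[ℝ] V →L[ℝ] V)
    (s u a b : V) (τ : ℝ) :
    HasDerivAt (rr1 Γ D s u a b) (- c0 Γ D s u a b) τ := by
  have h1 : HasDerivAt (fun t : ℝ => t • c0 Γ D s u a b) ((1 : ℝ) • c0 Γ D s u a b) τ :=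
    (hasDerivAt_id τ).smul_const _
  have h6 := h1.const_sub b
  rw [one_smul] at h6
  exact h6

lemma hd_PP (Γ : V → V →L[ℝ] V →L[ℝ] V) (D : V → V →L[ℝ] V →L[ℝ] V →L[ℝ] V)
    (hD : ∀ x, HasFDerivAt Γ (D x) x) (s u a b : V) (τ : ℝ) :
    HasDerivAt (PP Γ D s u a b) (PP1 Γ D s u a b τ) τ := by
  have h1 : HasDerivAt (fun t => Γ (qq Γ s a t)) (D (qq Γ s a τ) (qq1 Γ s a τ)) τ :=
    (hD _).comp_hasDerivAt τ (hd_qq Γ s a τ)
  have h2 := (h1.clm_apply (hd_qq1 Γ s a τ)).clm_apply (hd_rr Γ D s u a b τ)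
  have h3 := (hd_rr1 Γ D s u a b τ).add h2
  have h4 : - c0 Γ D s u a b + ((D (qq Γ s a τ) (qq1 Γ s a τ) (qq1 Γ s a τ) +
      Γ (qq Γ s a τ) (- Γ s a a)) (rr Γ D s u a b τ) +
      Γ (qq Γ s a τ) (qq1 Γ s a τ) (rr1 Γ D s u a b τ)) = PP1 Γ D s u a b τ := by
    unfold PP1
    rw [map_neg]
    simp only [add_apply, neg_apply]
    abel
  rw [h4] at h3
  exact h3

/-- first derivative of the energy -/
lemma hd_en (g : V → V →L[ℝ] V →L[ℝ] ℝ) (Γ : V → V →L[ℝ] V →L[ℝ] V)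
    (D : V → V →L[ℝ] V →L[ℝ] V →L[ℝ] V) (hg : Differentiable ℝ g)
    (hgs : ∀ x u v, g x u v = g x v u)
    (hc : ∀ x w u v, fderiv ℝ g x w u v = g x (Γ x w u) v + g x u (Γ x w v))
    (s u a b : V) (τ : ℝ) :
    HasDerivAt (fun t => g (qq Γ s a t) (rr Γ D s u a b t) (rr Γ D s u a b t) / 2)
      (g (qq Γ s a τ) (rr Γ D s u a b τ) (PP Γ D s u a b τ)) τ := by
  have h1 : HasDerivAt (fun t => g (qq Γ s a t)) (fderiv ℝ g (qq Γ s a τ) (qq1 Γ s a τ)) τ :=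
    (hg _).hasFDerivAt.comp_hasDerivAt τ (hd_qq Γ s a τ)
  have h2 := ((h1.clm_apply (hd_rr Γ D s u a b τ)).clm_apply (hd_rr Γ D s u a b τ)).div_const 2
  refine h2.congr_deriv ?_
  rw [add_apply, hc]
  unfold PP
  rw [map_add]
  rw [hgs _ (Γ (qq Γ s a τ) (qq1 Γ s a τ) (rr Γ D s u a b τ)) (rr Γ D s u a b τ),
    hgs _ (rr1 Γ D s u a b τ) (rr Γ D s u a b τ)]
  ring

/-- second derivative of the energy -/
lemma hd_en1 (g : V → V →L[ℝ] V →L[ℝ] ℝ) (Γ : V → V →L[ℝ] V →L[ℝ] V)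
    (D : V → V →L[ℝ] V →L[ℝ] V →L[ℝ] V) (hg : Differentiable ℝ g)
    (hc : ∀ x w u v, fderiv ℝ g x w u v = g x (Γ x w u) v + g x u (Γ x w v))
    (hD : ∀ x, HasFDerivAt Γ (D x) x)
    (s u a b : V) (τ : ℝ) :
    HasDerivAt (fun t => g (qq Γ s a t) (rr Γ D s u a b t) (PP Γ D s u a b t))
      (SS g Γ D s u a b τ) τ := by
  have h1 : HasDerivAt (fun t => g (qq Γ s a t)) (fderiv ℝ g (qq Γ s a τ) (qq1 Γ s a τ)) τ :=
    (hg _).hasFDerivAt.comp_hasDerivAt τ (hd_qq Γ s a τ)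
  have h2 := (h1.clm_apply (hd_rr Γ D s u a b τ)).clm_apply (hd_PP Γ D hD s u a b τ)
  refine h2.congr_deriv ?_
  rw [add_apply, hc]
  unfold SS
  have h3 : g (qq Γ s a τ) (PP Γ D s u a b τ) (PP Γ D s u a b τ) =
      g (qq Γ s a τ) (rr1 Γ D s u a b τ) (PP Γ D s u a b τ) +
      g (qq Γ s a τ) (Γ (qq Γ s a τ) (qq1 Γ s a τ) (rr Γ D s u a b τ)) (PP Γ D s u a b τ) := by
    rw [← add_apply, ← map_add]
    rfl
  rw [h3, map_add]
  ring

/-- the estimate, general form -/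
lemma sv_gen [FiniteDimensional ℝ V] (g : V → V →L[ℝ] V →L[ℝ] ℝ)
    (Γ : V → V →L[ℝ] V →L[ℝ] V) (D : V → V →L[ℝ] V →L[ℝ] V →L[ℝ] V)
    (hg : ContDiff ℝ ∞ g) (hΓ : ContDiff ℝ ∞ Γ) (hDs : ContDiff ℝ ∞ D)
    (hgs : ∀ x u v, g x u v = g x v u)
    (hc : ∀ x w u v, fderiv ℝ g x w u v = g x (Γ x w u) v + g x u (Γ x w v))
    (hD : ∀ x, HasFDerivAt Γ (D x) x) (K : Set (V × V × V × V)) (hK : IsCompact K) :
    ∃ C : ℝ, 0 ≤ C ∧ ∀ s u a b : V, (s, u, a, b) ∈ K → ∀ τ : ℝ, |τ| ≤ 1 → ∀ e e' : V,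
      ‖e‖ ≤ 1 → ‖e'‖ ≤ 1 →
      g (qq Γ s a τ + e) (rr Γ D s u a b τ + e') (rr Γ D s u a b τ + e') / 2 ≤
      g s u u / 2 + τ * g s u (PP Γ D s u a b 0) + τ ^ 2 / 2 * SS g Γ D s u a b 0 +
        C * (|τ| ^ 3 + ‖e‖ + ‖e'‖) := by
  obtain ⟨R0, hR0⟩ := hK.exists_bound_of_continuousOn (f := fun p => p) continuousOn_id
  set R : ℝ := max R0 1 with hR
  have hKR : ∀ p ∈ K, ‖p‖ ≤ R := fun p hp => (hR0 p hp).trans (le_max_left _ _)
  -- Taylor
  obtain ⟨C1, hC1, hL1⟩ := lipBall _ (smooth_SS g Γ D hg hΓ hDs) R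
  have hT : ∀ s u a b : V, (s, u, a, b) ∈ K → ∀ τ : ℝ, |τ| ≤ 1 →
      |g (qq Γ s a τ) (rr Γ D s u a b τ) (rr Γ D s u a b τ) / 2 -
        g (qq Γ s a 0) (rr Γ D s u a b 0) (rr Γ D s u a b 0) / 2 -
        τ * g (qq Γ s a 0) (rr Γ D s u a b 0) (PP Γ D s u a b 0) -
        τ ^ 2 / 2 * SS g Γ D s u a b 0| ≤ C1 * |τ| ^ 3 := by
    intro s u a b hp τ hτ
    have hdg : Differentiable ℝ g := hg.differentiable (by simp)
    refine taylor2 (fun t => g (qq Γ s a t) (rr Γ D s u a b t) (rr Γ D s u a b t) / 2)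
      (fun t => g (qq Γ s a t) (rr Γ D s u a b t) (PP Γ D s u a b t))
      (fun t => SS g Γ D s u a b t) (hd_en g Γ D hdg hgs hc s u a b)
      (hd_en1 g Γ D hdg hc hD s u a b) C1 hC1 ?_ τ hτ
    intro t ht
    have h1 : ‖(((s, u, a, b), (0 : ℝ)) : (V × V × V × V) × ℝ)‖ ≤ R := by
      rw [Prod.norm_def]
      simp only [norm_zero]
      exact max_le (hKR _ hp) ((zero_le_one).trans (le_max_right _ _))
    have h2 : ‖(((s, u, a, b), t) : (V × V × V × V) × ℝ)‖ ≤ R := by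
      rw [Prod.norm_def]
      refine max_le (hKR _ hp) ?_
      simp only [Real.norm_eq_abs]
      exact ht.trans (le_max_right _ _)
    have h3 := hL1 _ _ h1 h2
    have h4 : ‖(((s, u, a, b), t) : (V × V × V × V) × ℝ) - ((s, u, a, b), (0 : ℝ))‖ = |t| := by
      rw [Prod.mk_sub_mk, sub_self, sub_zero, Prod.norm_def]
      simp
    rw [h4] at h3
    exact h3
  -- Lipschitz dependence on the errors
  have hcomp : IsCompact (Metric.closedBall (0 : (V × V × V × V) × ℝ) R) :=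
    isCompact_closedBall _ _
  obtain ⟨R1, hR1⟩ := hcomp.exists_bound_of_continuousOn (cont_qr Γ D hΓ hDs).continuousOn
  have hG : ContDiff ℝ ∞ (fun y : V × V => g y.1 y.2 y.2 / 2) := by
    fun_prop
  obtain ⟨C2, hC2, hL2⟩ := lipBall _ hG (R1 + 1)
  refine ⟨max C1 C2, le_max_of_le_left hC1, ?_⟩
  intro s u a b hp τ hτ e e' he he'
  have h0 : ‖(((s, u, a, b), τ) : (V × V × V × V) × ℝ)‖ ≤ R := by
    rw [Prod.norm_def]
    refine max_le (hKR _ hp) ?_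
    simp only [Real.norm_eq_abs]
    exact hτ.trans (le_max_right _ _)
  have h1 : ‖((qq Γ s a τ, rr Γ D s u a b τ) : V × V)‖ ≤ R1 := by
    have := hR1 ((s, u, a, b), τ) (by simpa using h0)
    exact this
  have h2 : ‖((e, e') : V × V)‖ ≤ 1 := by
    rw [Prod.norm_def]
    exact max_le he he'
  have h3 : ‖((qq Γ s a τ + e, rr Γ D s u a b τ + e') : V × V)‖ ≤ R1 + 1 := by
    have : ((qq Γ s a τ + e, rr Γ D s u a b τ + e') : V × V) =
        (qq Γ s a τ, rr Γ D s u a b τ) + (e, e') := rfl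
    rw [this]
    exact (norm_add_le _ _).trans (add_le_add h1 h2)
  have h4 := hL2 (qq Γ s a τ, rr Γ D s u a b τ) (qq Γ s a τ + e, rr Γ D s u a b τ + e')
    (h1.trans (by linarith)) h3
  have h5 : ((qq Γ s a τ + e, rr Γ D s u a b τ + e') : V × V) -
      (qq Γ s a τ, rr Γ D s u a b τ) = (e, e') := by
    rw [Prod.mk_sub_mk, add_sub_cancel_left, add_sub_cancel_left]
  rw [h5] at h4
  have h6 : ‖((e, e') : V × V)‖ ≤ ‖e‖ + ‖e'‖ := by
    rw [Prod.norm_def]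
    exact max_le (le_add_of_nonneg_right (norm_nonneg _)) (le_add_of_nonneg_left (norm_nonneg _))
  have h7 := hT s u a b hp τ hτ
  have h8 : g (qq Γ s a τ + e) (rr Γ D s u a b τ + e') (rr Γ D s u a b τ + e') / 2 -
      g (qq Γ s a τ) (rr Γ D s u a b τ) (rr Γ D s u a b τ) / 2 ≤ C2 * (‖e‖ + ‖e'‖) := by
    rw [Real.norm_eq_abs] at h4
    exact (le_abs_self _).trans (h4.trans (mul_le_mul_of_nonneg_left h6 hC2))
  have q0 : qq Γ s a 0 = s := by unfold qq; simp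
  have r0 : rr Γ D s u a b 0 = u := by unfold rr; simp
  rw [q0, r0] at h7
  have h9 := (le_abs_self _).trans h7
  have hm1 : C1 * |τ| ^ 3 ≤ max C1 C2 * |τ| ^ 3 :=
    mul_le_mul_of_nonneg_right (le_max_left _ _) (by positivity)
  have hm2 : C2 * (‖e‖ + ‖e'‖) ≤ max C1 C2 * (‖e‖ + ‖e'‖) :=
    mul_le_mul_of_nonneg_right (le_max_right _ _) (by positivity)
  have hm3 : max C1 C2 * (|τ| ^ 3 + ‖e‖ + ‖e'‖) = max C1 C2 * |τ| ^ 3 +
      max C1 C2 * (‖e‖ + ‖e'‖) := by ring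
  rw [hm3]
  linarith

end

theorem hSv (hChr : StChr) : StSv := by
  intro n g Γ hg hΓ K hK
  obtain ⟨hs, hsym, hcomp⟩ := hChr n g Γ hg hΓ
  have hdΓ : Differentiable ℝ Γ := hs.differentiable (by simp)
  have hD : ContDiff ℝ ∞ (fderiv ℝ Γ) := hs.fderiv_right (m := ∞) (by simp)
  obtain ⟨C, hC, h⟩ := sv_gen g Γ (fderiv ℝ Γ) hg.smooth hs hD hg.symm hcomp
    (fun x => (hdΓ x).hasFDerivAt) K hK
  refine ⟨C, hC, ?_⟩
  intro s u a b hp τ hτ e e' he he'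
  have h1 := h s u a b hp τ hτ e e' he he'
  have hP : PP Γ (fderiv ℝ Γ) s u a b 0 = b + Γ s u a := by
    unfold PP rr1 qq qq1 rr
    simp only [zero_smul, sub_zero, add_zero, ne_eq, OfNat.ofNat_ne_zero, not_false_eq_true,
      zero_pow, zero_div]
    rw [hsym s a u]
  have hDsym : ∀ x y v w, fderiv ℝ Γ x y v w = fderiv ℝ Γ x y w v := by
    intro x y v w
    have e1 : HasFDerivAt (fun z => Γ z v w)
        (((fderiv ℝ Γ x).flip v).flip w) x := by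
      have := (((hdΓ x).hasFDerivAt).clm_apply (hasFDerivAt_const v x)).clm_apply
        (hasFDerivAt_const w x)
      refine this.congr_fderiv ?_
      ext z
      simp
    have e2 : HasFDerivAt (fun z => Γ z w v)
        (((fderiv ℝ Γ x).flip w).flip v) x := by
      have := (((hdΓ x).hasFDerivAt).clm_apply (hasFDerivAt_const w x)).clm_apply
        (hasFDerivAt_const v x)
      refine this.congr_fderiv ?_
      ext z
      simp
    have e3 : (fun z => Γ z v w) = fun z => Γ z w v := funext fun z => hsym z v w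
    rw [e3] at e1
    have e4 := e1.unique e2
    have e5 := congrArg (fun T => T y) e4
    simpa using e5
  have hS : SS g Γ (fderiv ℝ Γ) s u a b 0 = g s (b + Γ s u a) (b + Γ s u a) +
      g s (Rm Γ s a u a) u := by
    unfold SS
    rw [hP]
    have q0 : qq Γ s a 0 = s := by unfold qq; simp
    have q1 : qq1 Γ s a 0 = a := by unfold qq1; simp
    have r0 : rr Γ (fderiv ℝ Γ) s u a b 0 = u := by unfold rr; simp
    rw [q0, q1, r0, hg.symm s u]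
    have hR : PP1 Γ (fderiv ℝ Γ) s u a b 0 + Γ s a (b + Γ s u a) = Rm Γ s a u a := by
      unfold PP1 c0 Rm
      rw [q0, q1, r0]
      have r1 : rr1 Γ (fderiv ℝ Γ) s u a b 0 = b := by unfold rr1; simp
      have r2 : Γ s a (b + Γ s u a) = Γ s a b + Γ s a (Γ s u a) := map_add _ _ _
      rw [r1, r2, hDsym s a a u, hsym s (Γ s a a) u, two_smul]
      abel
    rw [hR]
  rw [hP, hS] at h1
  exact h1

end Pool.Agent.Helper86.LH
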