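import Pool.Agent.Helper62.LH.StG
import Pool.Agent.Helper86.LH.M_SV

/-!
Project LH, module GE: short geodesics with uniform expansion.
-/

set_option autoImplicit false
set_option maxSynthPendingDepth 3

open Set Filter Topology
open scoped ContDiff NNReal

noncomputable section

namespace Pool.Agent.Helper86.LH

open Helper62.LH

/-- Picard-Lindelof with the information that the solution stays in the ball -/
lemma picard_stay {V : Type} [NormedAddCommGroup V] [NormedSpace ℝ V] [CompleteSpace V]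
    {f : ℝ → V → V} {tmin tmax : ℝ} {t₀ : Icc tmin tmax} {x₀ : V} {a L K : ℝ≥0}
    (hf : IsPicardLindelof f t₀ x₀ a 0 L K) :
    ∃ α : ℝ → V, α t₀ = x₀ ∧ (∀ t, α t ∈ Metric.closedBall x₀ a) ∧
      ∀ t ∈ Icc tmin tmax, HasDerivWithinAt α (f t (α t)) (Icc tmin tmax) t := by
  have hx : x₀ ∈ Metric.closedBall x₀ (0 : ℝ≥0) := Metric.mem_closedBall_self le_rfl
  obtain ⟨α, hα⟩ := ODE.FunSpace.exists_isFixedPt_next hf hx
  refine ⟨α.compProj, by rw [ODE.FunSpace.compProj_val, ← hα, ODE.FunSpace.next_apply₀],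
    fun t => α.compProj_mem_closedBall hf.mul_max_le, fun t ht ↦ ?_⟩
  apply (ODE.hasDerivWithinAt_picard_Icc t₀.2 hf.continuousOn_uncurry
    α.continuous_compProj.continuousOn (fun _ ht' ↦ α.compProj_mem_closedBall hf.mul_max_le)
    x₀ ht).congr_of_mem _ ht
  intro t' ht'
  nth_rw 1 [← hα]
  rw [ODE.FunSpace.compProj_of_mem ht', ODE.FunSpace.next_apply]

/-- second order expansion of a solution of a second order equation -/
lemma taylor2v {V : Type} [NormedAddCommGroup V] [NormedSpace ℝ V] (c w N : ℝ → V) (h₀ : ℝ)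
    (h0 : 0 ≤ h₀)
    (hc : ∀ t ∈ Icc (-h₀) h₀, HasDerivWithinAt c (w t) (Icc (-h₀) h₀) t)
    (hw : ∀ t ∈ Icc (-h₀) h₀, HasDerivWithinAt w (N t) (Icc (-h₀) h₀) t) (C : ℝ) (hC0 : 0 ≤ C)
    (hC : ∀ t ∈ Icc (-h₀) h₀, ‖N t - N 0‖ ≤ C * |t|) (τ : ℝ) (hτ : |τ| ≤ h₀) :
    ‖c τ - (c 0 + τ • w 0 + (τ ^ 2 / 2) • N 0)‖ ≤ C * |τ| ^ 3 := by
  have hτ' : τ ∈ Icc (-h₀) h₀ := abs_le.mp hτ
  have h0' : (0 : ℝ) ∈ Icc (-h₀) h₀ := ⟨by linarith, h0⟩
  have hsub : ∀ t ∈ Icc (-h₀) h₀, segment ℝ (0 : ℝ) t ⊆ Icc (-h₀) h₀ := fun t ht =>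
    (convex_Icc _ _).segment_subset h0' ht
  have hseg : ∀ t : ℝ, ∀ x ∈ segment ℝ (0 : ℝ) t, |x| ≤ |t| := by
    intro t x hx
    obtain ⟨a, b, ha, hb, hab, rfl⟩ := hx
    rw [smul_zero, zero_add, smul_eq_mul, abs_mul, abs_of_nonneg hb]
    have : b ≤ 1 := by linarith
    exact mul_le_of_le_one_left (abs_nonneg _) this
  have hh : ∀ t ∈ segment ℝ (0 : ℝ) τ, ‖w t - w 0 - t • N 0‖ ≤ C * |τ| * |τ| := by
    intro t ht
    have htI := hsub τ hτ' ht
    have hd : ∀ x ∈ segment ℝ (0 : ℝ) t,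
        HasDerivWithinAt (fun x => w x - w 0 - x • N 0) (N x - N 0) (segment ℝ 0 t) x := by
      intro x hx
      have hxI := hsub t htI hx
      have h3 := ((hw x hxI).sub_const (w 0)).sub
        (((hasDerivAt_id x).smul_const (N 0)).hasDerivWithinAt (s := Icc (-h₀) h₀))
      simp only [one_smul] at h3
      exact h3.mono (hsub t htI)
    have hb : ∀ x ∈ segment ℝ (0 : ℝ) t, ‖N x - N 0‖ ≤ C * |τ| := by
      intro x hx
      have h4 := (hseg t x hx).trans (hseg τ t ht)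
      exact (hC x (hsub t htI hx)).trans (mul_le_mul_of_nonneg_left h4 hC0)
    have h5 := Convex.norm_image_sub_le_of_norm_hasDerivWithin_le hd hb (convex_segment _ _)
      (left_mem_segment _ _ _) (right_mem_segment _ _ _)
    simp only [zero_smul, sub_zero, sub_self] at h5
    rw [Real.norm_eq_abs] at h5
    exact h5.trans (mul_le_mul_of_nonneg_left (hseg τ t ht) (mul_nonneg hC0 (abs_nonneg _)))
  have hd : ∀ x ∈ segment ℝ (0 : ℝ) τ,
      HasDerivWithinAt (fun x => c x - c 0 - x • w 0 - (x ^ 2 / 2) • N 0)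
        (w x - w 0 - x • N 0) (segment ℝ 0 τ) x := by
    intro x hx
    have hxI := hsub τ hτ' hx
    have h2 : HasDerivAt (fun t : ℝ => (t ^ 2 / 2) • N 0) (x • N 0) x := by
      have h3 : HasDerivAt (fun t : ℝ => t ^ 2 / 2) x x := by
        have h4 := ((hasDerivAt_id x).pow 2).div_const 2
        have h5 : ((2 : ℕ) * id x ^ (2 - 1) * 1) / 2 = x := by
          simp only [id]
          push_cast
          ring
        rw [h5] at h4
        exact h4
      exact h3.smul_const _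
    have h3 := (((hc x hxI).sub_const (c 0)).sub
        (((hasDerivAt_id x).smul_const (w 0)).hasDerivWithinAt (s := Icc (-h₀) h₀))).sub
        (h2.hasDerivWithinAt (s := Icc (-h₀) h₀))
    simp only [one_smul] at h3
    exact h3.mono (hsub τ hτ')
  have h5 := Convex.norm_image_sub_le_of_norm_hasDerivWithin_le hd
    (fun x hx => hh x hx) (convex_segment _ _)
    (left_mem_segment _ _ _) (right_mem_segment _ _ _)
  have h6 : (c τ - c 0 - τ • w 0 - (τ ^ 2 / 2) • N 0) -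
      (c 0 - c 0 - (0 : ℝ) • w 0 - ((0 : ℝ) ^ 2 / 2) • N 0) =
      c τ - (c 0 + τ • w 0 + (τ ^ 2 / 2) • N 0) := by
    simp only [ne_eq, OfNat.ofNat_ne_zero, not_false_eq_true, zero_pow, zero_div, zero_smul,
      sub_self, sub_zero]
    abel
  rw [h6, sub_zero, Real.norm_eq_abs] at h5
  calc _ ≤ C * |τ| * |τ| * |τ| := h5
    _ = C * |τ| ^ 3 := by ring

/-- geodesic vector field -/
def FF {V : Type} [NormedAddCommGroup V] [NormedSpace ℝ V] (Γ : V → V →L[ℝ] V →L[ℝ] V)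
    (z : V × V) : V × V := (z.2, -(Γ z.1 z.2 z.2))

lemma ge_gen {V : Type} [NormedAddCommGroup V] [NormedSpace ℝ V] [FiniteDimensional ℝ V]
    (Γ : V → V →L[ℝ] V →L[ℝ] V) (hΓ : ContDiff ℝ ∞ Γ) (K : Set V) (hK : IsCompact K) :
    ∃ h₀ C : ℝ, 0 < h₀ ∧ 0 ≤ C ∧ ∀ x ∈ K, ∀ v : V, ‖v‖ ≤ 1 →
      ∃ c w : ℝ → V, (∀ t ∈ Icc (-h₀) h₀, HasDerivWithinAt c (w t) (Icc (-h₀) h₀) t) ∧
        (∀ t ∈ Icc (-h₀) h₀, HasDerivWithinAt w (-(Γ (c t) (w t) (w t))) (Icc (-h₀) h₀) t) ∧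
        c 0 = x ∧ w 0 = v ∧
        ∀ h : ℝ, |h| ≤ h₀ → ‖c h - (x + h • v - (h ^ 2 / 2) • Γ x v v)‖ ≤ C * |h| ^ 3 := by
  have : CompleteSpace V := FiniteDimensional.complete ℝ V
  obtain ⟨R0, hR0⟩ := hK.exists_bound_of_continuousOn (f := fun p => p) continuousOn_id
  set R : ℝ := max R0 1 + 1 with hR
  have hF : ContDiff ℝ ∞ (FF Γ) := by
    unfold FF
    fun_prop
  have hN : ContDiff ℝ ∞ (fun z : V × V => -(Γ z.1 z.2 z.2)) := by fun_prop
  obtain ⟨K1, hK1, hLip⟩ := lipBall _ hF R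
  obtain ⟨C1, hC1, hLipN⟩ := lipBall _ hN R
  obtain ⟨L0, hL0⟩ := (isCompact_closedBall (0 : V × V) R).exists_bound_of_continuousOn
    hF.continuous.continuousOn
  set L : ℝ := max L0 1 with hL
  have hLpos : 0 < L := lt_of_lt_of_le one_pos (le_max_right _ _)
  have hFb : ∀ z : V × V, ‖z‖ ≤ R → ‖FF Γ z‖ ≤ L := fun z hz =>
    (hL0 z (by simpa using hz)).trans (le_max_left _ _)
  set h₀ : ℝ := 1 / L with hh0
  have hh0pos : 0 < h₀ := by positivity
  refine ⟨h₀, C1 * L, hh0pos, mul_nonneg hC1 hLpos.le, ?_⟩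
  intro x hx v hv
  have hz0 : ‖((x, v) : V × V)‖ ≤ max R0 1 := by
    rw [Prod.norm_def]
    exact max_le ((hR0 x hx).trans (le_max_left _ _)) (hv.trans (le_max_right _ _))
  have hball : ∀ z ∈ Metric.closedBall ((x, v) : V × V) (1 : ℝ≥0), ‖z‖ ≤ R := by
    intro z hz
    have h1 : ‖z - (x, v)‖ ≤ 1 := by
      rw [Metric.mem_closedBall, dist_eq_norm] at hz
      simpa using hz
    calc ‖z‖ = ‖(z - (x, v)) + (x, v)‖ := by rw [sub_add_cancel]
      _ ≤ ‖z - (x, v)‖ + ‖((x, v) : V × V)‖ := norm_add_le _ _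
      _ ≤ R := by rw [hR]; linarith
  have hPL : IsPicardLindelof (fun _ => FF Γ) (tmin := -h₀) (tmax := h₀)
      ⟨0, ⟨by linarith, hh0pos.le⟩⟩ ((x, v) : V × V) 1 0 ⟨L, hLpos.le⟩ ⟨K1, hK1⟩ := by
    apply IsPicardLindelof.of_time_independent
    · intro z hz
      exact hFb z (hball z hz)
    · rw [lipschitzOnWith_iff_norm_sub_le]
      intro z hz z' hz'
      exact hLip z' z (hball z' hz') (hball z hz)
    · simp only [sub_zero, zero_sub, neg_neg, max_self, NNReal.coe_one, NNReal.coe_zero]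
      show L * h₀ ≤ 1
      rw [hh0]
      field_simp
      exact le_refl _
  obtain ⟨α, hα0, hαm, hαd⟩ := picard_stay hPL
  have hα0' : α 0 = (x, v) := hα0
  have hαR : ∀ t, ‖α t‖ ≤ R := fun t => hball _ (hαm t)
  have hc : ∀ t ∈ Icc (-h₀) h₀, HasDerivWithinAt (fun t => (α t).1) (α t).2
      (Icc (-h₀) h₀) t := by
    intro t ht
    have := (ContinuousLinearMap.fst ℝ V V).hasFDerivAt.comp_hasDerivWithinAt t (hαd t ht)
    exact this
  have hw : ∀ t ∈ Icc (-h₀) h₀, HasDerivWithinAt (fun t => (α t).2)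
      (-(Γ (α t).1 (α t).2 (α t).2)) (Icc (-h₀) h₀) t := by
    intro t ht
    have := (ContinuousLinearMap.snd ℝ V V).hasFDerivAt.comp_hasDerivWithinAt t (hαd t ht)
    exact this
  refine ⟨fun t => (α t).1, fun t => (α t).2, hc, hw, ?_, ?_, ?_⟩
  · show (α 0).1 = x
    rw [hα0']
  · show (α 0).2 = v
    rw [hα0']
  · intro h hh
    have h0' : (0 : ℝ) ∈ Icc (-h₀) h₀ := ⟨by linarith, hh0pos.le⟩
    have hbd : ∀ t ∈ Icc (-h₀) h₀, ‖α t - α 0‖ ≤ L * |t| := by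
      intro t ht
      have h5 := Convex.norm_image_sub_le_of_norm_hasDerivWithin_le hαd
        (fun z _ => hFb _ (hαR z)) (convex_Icc _ _) h0' ht
      rw [sub_zero, Real.norm_eq_abs] at h5
      exact h5
    have key := taylor2v (fun t => (α t).1) (fun t => (α t).2)
      (fun t => -(Γ (α t).1 (α t).2 (α t).2)) h₀ hh0pos.le hc hw (C1 * L)
      (mul_nonneg hC1 hLpos.le) (by
        intro t ht
        have h6 := hLipN (α 0) (α t) (hαR 0) (hαR t)
        calc _ ≤ C1 * ‖α t - α 0‖ := h6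
          _ ≤ C1 * (L * |t|) := mul_le_mul_of_nonneg_left (hbd t ht) hC1
          _ = C1 * L * |t| := by ring) h hh
    simp only [hα0'] at key
    have e1 : x + h • v + (h ^ 2 / 2) • -(Γ x v v) = x + h • v - (h ^ 2 / 2) • Γ x v v := by
      rw [smul_neg, sub_eq_add_neg]
    rw [e1] at key
    exact key

theorem hGe (hChr : StChr) : StGe := by
  intro n g Γ hg hΓ K hK
  obtain ⟨hs, _, _⟩ := hChr n g Γ hg hΓ
  obtain ⟨h₀, C, h1, h2, h3⟩ := ge_gen Γ hs K hK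
  refine ⟨h₀, C, h1, h2, ?_⟩
  intro x hx v hv
  obtain ⟨c, w, a1, a2, a3, a4, a5⟩ := h3 x hx v hv
  exact ⟨c, w, ⟨a1, a2⟩, a3, a4, a5⟩

end Pool.Agent.Helper86.LH
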