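import Pool.Agent.Helper62.LH.StA
import Pool.Agent.Helper86.LH.M_BO

/-!
# Project LH, module LIM: the limit of the Bochner inequality
-/

set_option autoImplicit false
set_option maxSynthPendingDepth 3

open Set Filter Topology MeasureTheory
open scoped ContDiff ENNReal

noncomputable section

namespace Pool.Agent.Helper86.LH

open Helper62.LH

theorem pick (M δ : ℝ) (hM : 0 ≤ M) (hδ : 0 < δ) : ∃ s : ℝ, 0 < s ∧ s ≤ 1 ∧ s * M ≤ δ := by
  refine ⟨δ / (M + δ), by positivity, ?_, ?_⟩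
  · rw [div_le_one (by positivity)]; linarith
  · rw [div_mul_eq_mul_div, div_le_iff₀ (by positivity)]; nlinarith

theorem fd_smul {n : ℕ} (χ : E n → ℝ) (θ : E n → Dl n) (hχ : ContDiff ℝ ∞ χ)
    (hθ : ContDiff ℝ ∞ θ) (x u v : E n) :
    fderiv ℝ (fun y => χ y • θ y) x u v =
      χ x * fderiv ℝ θ x u v + fderiv ℝ χ x u * θ x v := by
  have h := fderiv_fun_smul (hχ.differentiable (by simp) x) (hθ.differentiable (by simp) x)
  rw [h]; simp

theorem cf_smul {n : ℕ} (Γ : E n → Bm n) (χ : E n → ℝ) (θ : E n → Dl n) (hχ : ContDiff ℝ ∞ χ)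
    (hθ : ContDiff ℝ ∞ θ) (x u v : E n) :
    cf Γ (fun y => χ y • θ y) x u v = χ x * cf Γ θ x u v + fderiv ℝ χ x u * θ x v := by
  rw [cf, cf, fd_smul χ θ hχ hθ]
  simp only [FunLike.coe_smul, Pi.smul_apply, smul_eq_mul]
  ring

theorem dd_smul {n : ℕ} (χ : E n → ℝ) (θ : E n → Dl n) (hχ : ContDiff ℝ ∞ χ)
    (hθ : ContDiff ℝ ∞ θ) (x u v : E n) :
    dd (fun y => χ y • θ y) x u v = χ x * dd θ x u v +
      (fderiv ℝ χ x u * θ x v - fderiv ℝ χ x v * θ x u) := by
  rw [dd, dd, fd_smul χ θ hχ hθ, fd_smul χ θ hχ hθ]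
  ring

theorem trg_add {n : ℕ} (g : E n → Bl n) (x : E n) (B C : E n → E n → ℝ) :
    trg g x (fun u v => B u v + C u v) = trg g x B + trg g x C := by
  simp only [trg, mul_add, Finset.sum_add_distrib]

theorem trg_smul {n : ℕ} (g : E n → Bl n) (x : E n) (c : ℝ) (B : E n → E n → ℝ) :
    trg g x (fun u v => c * B u v) = c * trg g x B := by
  simp only [trg, Finset.mul_sum]
  exact Finset.sum_congr rfl fun i _ => Finset.sum_congr rfl fun j _ => by ring

theorem ip_smul {n : ℕ} (g : E n → Bl n) (x : E n) (c : ℝ) (a b : Dl n) :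
    ip g x a (c • b) = c * ip g x a b := by
  rw [ip, ip, ← trg_smul]
  refine congrArg _ ?_
  funext u v
  simp only [FunLike.coe_smul, Pi.smul_apply, smul_eq_mul]
  ring

theorem ip_smul2 {n : ℕ} (g : E n → Bl n) (x : E n) (c : ℝ) (a : Dl n) :
    ip g x (c • a) (c • a) = c ^ 2 * ip g x a a := by
  rw [ip, ip, ← trg_smul]
  refine congrArg _ ?_
  funext u v
  simp only [FunLike.coe_smul, Pi.smul_apply, smul_eq_mul]
  ring

theorem dl_smul {n : ℕ} (g : E n → Bl n) (Γ : E n → Bm n) (f χ : E n → ℝ) (θ : E n → Dl n)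
    (hχ : ContDiff ℝ ∞ χ) (hθ : ContDiff ℝ ∞ θ) (x : E n) :
    dl g Γ f (fun y => χ y • θ y) x = χ x * dl g Γ f θ x + ip g x (fderiv ℝ χ x) (θ x) := by
  have e : cf Γ (fun y => χ y • θ y) x = fun u v => (χ x * cf Γ θ x u v) +
      fderiv ℝ χ x u * θ x v := by
    funext u v
    exact cf_smul Γ χ θ hχ hθ x u v
  have e2 : ip g x (fderiv ℝ χ x) (θ x) = trg g x (fun u v => fderiv ℝ χ x u * θ x v) := rfl
  rw [dl, dl, ip_smul, e, trg_add, trg_smul, e2]
  ring

theorem lim_ptw (hIna : StIna) (hInb : StInb) {n : ℕ} {g : E n → Bl n} {Γ : E n → Bm n}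
    (hg : IsMet g) (f χ : E n → ℝ) (θ : E n → Dl n) (hχ : ContDiff ℝ ∞ χ)
    (hθ : ContDiff ℝ ∞ θ) (x : E n) (h0 : 0 ≤ χ x) (h1 : χ x ≤ 1) (k : ℝ) (hk : 0 ≤ k)
    (hdχ : ∀ v, |fderiv ℝ χ x v| ≤ k * nr g x v) (B : Bl n) (s κ ε : ℝ) (hs : 0 < s)
    (hB : nB g x (fun u v => dd θ x u v - B u v) ≤ κ) (hε : 0 ≤ ε) (a : Dl n) :
    nB g x (dd (fun y => χ y • θ y) x) / 2 + dl g Γ f (fun y => χ y • θ y) x ^ 2 +
      ε * ip g x (χ x • θ x) (χ x • θ x) ≤
    (1 + s) ^ 2 * (nB g x (fun u v => B u v) / 2) + (1 + s) * (1 + 1 / s) * κ / 2 +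
      (ε + (3 + 1 / s) * k ^ 2) * ((1 + s) * ip g x a a +
        (1 + 1 / s) * ip g x (θ x - a) (θ x - a)) + 2 * dl g Γ f θ x ^ 2 := by
  obtain ⟨a1, a2, a3, a4, a5, a6, a7, a8⟩ := hIna n g hg x
  obtain ⟨b1, b2, b3, b4, b5, b6, b7, b8⟩ := hInb n g hg x
  have hd2 : ip g x (fderiv ℝ χ x) (fderiv ℝ χ x) ≤ k ^ 2 := a7 _ k hk hdχ
  have hθ0 := a1 (θ x)
  have hdχ0 := a1 (fderiv ℝ χ x)
  have hc2 : χ x ^ 2 ≤ 1 := pow_le_one₀ h0 h1
  have hs1 : 0 < 1 / s := by positivity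
  -- the exterior derivative
  have e1 : nB g x (dd (fun y => χ y • θ y) x) ≤ (1 + s) * (χ x ^ 2 * nB g x (dd θ x)) +
      (1 + 1 / s) * (2 * ip g x (fderiv ℝ χ x) (fderiv ℝ χ x) * ip g x (θ x) (θ x)) := by
    have h := b2 (χ x • dB θ x) (((fderiv ℝ χ x).smulRight (θ x)) -
      ((fderiv ℝ χ x).smulRight (θ x)).flip) s hs
    have q1 : (fun u v => (χ x • dB θ x) u v + (((fderiv ℝ χ x).smulRight (θ x)) -
        ((fderiv ℝ χ x).smulRight (θ x)).flip) u v) = dd (fun y => χ y • θ y) x := by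
      funext u v
      rw [dd_smul χ θ hχ hθ, ← dB_apply]
      simp
    have q2 : (fun u v => (((fderiv ℝ χ x).smulRight (θ x)) -
        ((fderiv ℝ χ x).smulRight (θ x)).flip) u v) =
        fun u v => fderiv ℝ χ x u * θ x v - fderiv ℝ χ x v * θ x u := by
      funext u v
      simp
    have q3 : (fun u v => (χ x • dB θ x) u v) = fun u v => χ x * dB θ x u v := by
      funext u v
      simp
    rw [q1, q2, q3, b3] at h
    have q4 := b4 (fderiv ℝ χ x) (θ x)
    have q5 : (fun u v => dB θ x u v) = dd θ x := by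
      funext u v
      rw [dB_apply]
    rw [q5] at h
    have q6 := mul_le_mul_of_nonneg_left q4 (show (0 : ℝ) ≤ 1 + 1 / s by positivity)
    linarith
  have e2 : nB g x (dd θ x) ≤ (1 + s) * nB g x (fun u v => B u v) + (1 + 1 / s) * κ := by
    have h := b2 B (dB θ x - B) s hs
    have q1 : (fun u v => B u v + (dB θ x - B) u v) = dd θ x := by
      funext u v
      rw [← dB_apply]
      simp
    have q2 : (fun u v => (dB θ x - B) u v) = fun u v => dd θ x u v - B u v := by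
      funext u v
      rw [← dB_apply]
      simp
    rw [q1, q2] at h
    have q6 := mul_le_mul_of_nonneg_left hB (show (0 : ℝ) ≤ 1 + 1 / s by positivity)
    linarith
  have hn0 : 0 ≤ nB g x (dd θ x) := by
    have h := b1 (dB θ x)
    simpa only [dB_apply] using h
  have e3 : dl g Γ f (fun y => χ y • θ y) x ^ 2 ≤
      2 * dl g Γ f θ x ^ 2 + 2 * k ^ 2 * ip g x (θ x) (θ x) := by
    rw [dl_smul g Γ f χ θ hχ hθ]
    have q1 : ip g x (fderiv ℝ χ x) (θ x) ^ 2 ≤ k ^ 2 * ip g x (θ x) (θ x) := by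
      have q := a4 (fderiv ℝ χ x) (θ x)
      calc ip g x (fderiv ℝ χ x) (θ x) ^ 2 = |ip g x (fderiv ℝ χ x) (θ x)| ^ 2 := (sq_abs _).symm
        _ ≤ (√(ip g x (fderiv ℝ χ x) (fderiv ℝ χ x)) * √(ip g x (θ x) (θ x))) ^ 2 :=
          pow_le_pow_left₀ (abs_nonneg _) q 2
        _ = ip g x (fderiv ℝ χ x) (fderiv ℝ χ x) * ip g x (θ x) (θ x) := by
          rw [mul_pow, Real.sq_sqrt hdχ0, Real.sq_sqrt hθ0]
        _ ≤ _ := mul_le_mul_of_nonneg_right hd2 hθ0
    have q2 : (χ x * dl g Γ f θ x) ^ 2 ≤ dl g Γ f θ x ^ 2 := by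
      rw [mul_pow]
      exact mul_le_of_le_one_left (sq_nonneg _) hc2
    linarith [sq_nonneg (χ x * dl g Γ f θ x - ip g x (fderiv ℝ χ x) (θ x))]
  have e4 : ip g x (χ x • θ x) (χ x • θ x) ≤ ip g x (θ x) (θ x) := by
    rw [ip_smul2]
    exact mul_le_of_le_one_left hθ0 hc2
  have e5 : ip g x (θ x) (θ x) ≤ (1 + s) * ip g x a a +
      (1 + 1 / s) * ip g x (θ x - a) (θ x - a) := by
    have h := a6 a (θ x - a) s hs
    rwa [add_sub_cancel] at h
  have e6 : (1 + s) * (χ x ^ 2 * nB g x (dd θ x)) ≤ (1 + s) * ((1 + s) *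
      nB g x (fun u v => B u v) + (1 + 1 / s) * κ) := by
    refine mul_le_mul_of_nonneg_left ?_ (by positivity)
    exact le_trans (mul_le_of_le_one_left hn0 hc2) e2
  have e7 : (1 + 1 / s) * (2 * ip g x (fderiv ℝ χ x) (fderiv ℝ χ x) * ip g x (θ x) (θ x)) ≤
      (1 + 1 / s) * (2 * k ^ 2 * ip g x (θ x) (θ x)) := by
    refine mul_le_mul_of_nonneg_left ?_ (by positivity)
    linarith [mul_le_mul_of_nonneg_right hd2 hθ0]
  have e8 : (ε + (3 + 1 / s) * k ^ 2) * ip g x (θ x) (θ x) ≤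
      (ε + (3 + 1 / s) * k ^ 2) * ((1 + s) * ip g x a a +
        (1 + 1 / s) * ip g x (θ x - a) (θ x - a)) :=
    mul_le_mul_of_nonneg_left e5 (by positivity)
  have e9 := mul_le_mul_of_nonneg_left e4 hε
  linarith [e1, e3, e6, e7, e8, e9]


theorem dl_cont (hUt : StUt) {n : ℕ} {g : E n → Bl n} {Γ : E n → Bm n} (hg : IsMet g)
    (hgi : ∀ i j, ContDiff ℝ ∞ (fun x => gi g x i j)) (hΓ : ContDiff ℝ ∞ Γ) (f : E n → ℝ)
    (hf : ContDiff ℝ ∞ f) (θ : E n → Dl n) (hθ : ContDiff ℝ ∞ θ) :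
    Continuous (dl g Γ f θ) := by
  have h1 : Continuous (fun x => fderiv ℝ θ x) := hθ.continuous_fderiv (by simp)
  have h2 : Continuous (fun x => fderiv ℝ f x) := hf.continuous_fderiv (by simp)
  have h3 := hθ.continuous
  have h4 := hΓ.continuous
  have h5 : ∀ i j, Continuous (fun x => gi g x i j) := fun i j => (hgi i j).continuous
  have h6 := (hUt n g hg).1 _ _ h2 h3
  refine Continuous.sub ?_ h6
  unfold trg cf
  refine continuous_finsetSum _ fun i _ => continuous_finsetSum _ fun j _ => (h5 i j).mul ?_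
  exact ((h1.clm_apply continuous_const).clm_apply continuous_const).sub
    (h3.clm_apply ((h4.clm_apply continuous_const).clm_apply continuous_const))

theorem l2_sub {n : ℕ} (θ θ' : E n → Dl n) (hθ : L2f θ) (hθ' : Continuous θ') :
    L2f (fun x => θ' x - θ x) := by
  intro j
  obtain ⟨m1, m2⟩ := hθ j
  have c1 : Continuous (fun x => θ' x (ee j)) := hθ'.clm_apply continuous_const
  refine ⟨?_, fun K hK => ?_⟩
  · exact (c1.aestronglyMeasurable (μ := volume)).sub m1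
  · have q1 : MemLp (fun x => θ x (ee j)) 2 (volume.restrict K) :=
      (memLp_two_iff_integrable_sq (m1.mono_measure Measure.restrict_le_self)).2 (m2 K hK)
    have q2 : MemLp (fun x => θ' x (ee j)) 2 (volume.restrict K) :=
      (memLp_two_iff_integrable_sq c1.aestronglyMeasurable).2
        ((c1.pow 2).continuousOn.integrableOn_compact hK)
    have q3 := (q2.sub q1).integrable_sq
    exact q3


theorem int5 {n : ℕ} {μ : Measure (E n)} {a b c d e : E n → ℝ} (ha : Integrable a μ)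
    (hb : Integrable b μ) (hc : Integrable c μ) (hd : Integrable d μ) (he : Integrable e μ)
    (r1 r2 r3 r4 r5 : ℝ) :
    Integrable (fun x => r1 * a x + r2 * b x + r3 * c x + r4 * d x + r5 * e x) μ ∧
    ∫ x, (r1 * a x + r2 * b x + r3 * c x + r4 * d x + r5 * e x) ∂μ =
      r1 * (∫ x, a x ∂μ) + r2 * (∫ x, b x ∂μ) + r3 * (∫ x, c x ∂μ) + r4 * (∫ x, d x ∂μ) +
        r5 * (∫ x, e x ∂μ) := by
  have h1 := (ha.const_mul r1).add (hb.const_mul r2)
  have h2 := h1.add (hc.const_mul r3)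
  have h3 := h2.add (hd.const_mul r4)
  have h4 := h3.add (he.const_mul r5)
  refine ⟨h4, ?_⟩
  have e4 := integral_add h3 (he.const_mul r5)
  have e3 := integral_add h2 (hd.const_mul r4)
  have e2 := integral_add h1 (hc.const_mul r3)
  have e1 := integral_add (ha.const_mul r1) (hb.const_mul r2)
  simp only [Pi.add_apply] at e1 e2 e3 e4
  rw [e4, e3, e2, e1]
  simp only [integral_const_mul]

/-- LIM: the limit of the Bochner inequality -/
theorem hLim (hChr : StChr) (hShp : StShp) (hUt : StUt) (hIna : StIna) (hInb : StInb)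
    (hBo : StBo) : StLim := by
  intro n g Γ hg hc hsec hcut f ε hf hf0 hε hH P θ hP hθ hapx hS hT K hK κ hκ
  obtain ⟨hΓ, hsym, -⟩ := hChr n g Γ hg hc
  have hgi := (hShp n g Γ hg hc).2.2.1
  obtain ⟨hu1, hu2, hu3, hu4, -, hu6⟩ := hUt n g hg
  have ina1 : ∀ x (a : Dl n), 0 ≤ ip g x a a := fun x => (hIna n g hg x).1
  have inb1 : ∀ x (B : Bl n), 0 ≤ nB g x (fun u v => B u v) := fun x => (hInb n g hg x).1
  have hW : Continuous (fun x => Real.exp (-f x) * vol g x) :=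
    (Real.continuous_exp.comp hf.continuous.neg).mul hu3
  have hWpos : ∀ x, 0 ≤ Real.exp (-f x) * vol g x :=
    fun x => (mul_pos (Real.exp_pos _) (hu4 x)).le
  have hWle : ∀ x, Real.exp (-f x) * vol g x ≤ vol g x := by
    intro x
    have h1 : Real.exp (-f x) ≤ 1 := Real.exp_le_one_iff.2 (by linarith [hf0 x])
    have h2 := (hu4 x).le
    nlinarith
  generalize hSd : ∫ x, nB g x (fun u v => P x u v) / 2 * (Real.exp (-f x) * vol g x) = S
  generalize hTd : ∫ x, ip g x (θ x) (θ x) * (Real.exp (-f x) * vol g x) = T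
  have hS0 : 0 ≤ S := by
    rw [← hSd]
    exact integral_nonneg fun x => mul_nonneg (div_nonneg (inb1 x _) (by norm_num)) (hWpos x)
  have hT0 : 0 ≤ T := by
    rw [← hTd]
    exact integral_nonneg fun x => mul_nonneg (ina1 x _) (hWpos x)
  obtain ⟨s, hs0, hs1, hs2⟩ := pick (3 * S + ε * T) (κ / 3) (by positivity) (by positivity)
  obtain ⟨t, ht0, ht1, ht2⟩ := pick ((3 + 1 / s) * ((1 + s) * T)) (κ / 3) (by positivity)
    (by positivity)
  obtain ⟨χ, hχ, hχ01, hχ1, hχd⟩ := hcut K hK t ht0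
  have hL : IsCompact (K ∪ tsupport χ) := hK.union hχ.2
  generalize hVd : ∫ x in K ∪ tsupport χ, Real.exp (-f x) * vol g x = V
  have hV0 : 0 ≤ V := by
    rw [← hVd]
    exact integral_nonneg fun x => hWpos x
  obtain ⟨κ₂, hk0, hk1, hk2⟩ := pick ((ε + (3 + 1 / s) * t ^ 2) * (1 + 1 / s) +
    (1 + s) * (1 + 1 / s) * V / 2 + 3) (κ / 3) (by positivity) (by positivity)
  obtain ⟨θ', hθ', p1, p2, p3⟩ := hapx (K ∪ tsupport χ) hL κ₂ hk0
  have hM : 0 ≤ (ε + (3 + 1 / s) * t ^ 2) * (1 + 1 / s) +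
    (1 + s) * (1 + 1 / s) * V / 2 := by positivity
  have hk3 : κ₂ ≤ κ := by linarith [mul_nonneg hk0.le hM]
  have J4 : IntegrableOn (fun x => ip g x (θ' x - θ x) (θ' x - θ x) * vol g x)
      (K ∪ tsupport χ) :=
    ((hu6 (fun x => θ' x - θ x)).1 (l2_sub θ θ' hθ hθ'.continuous)).2 _ hL
  refine ⟨θ', hθ', ?_, ?_⟩
  · refine le_trans (le_trans ?_ p1) hk3
    refine setIntegral_mono_set J4 (ae_of_all _ fun x => ?_) (ae_of_all _ fun x hx => ?_)
    · exact mul_nonneg (ina1 x _) (hu4 x).le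
    · exact Or.inl hx
  -- the cut-off form
  have hη : ContDiff ℝ ∞ (fun y => χ y • θ' y) := hχ.1.smul hθ'
  have zχ : ∀ x, x ∉ tsupport χ → χ x = 0 := fun x hx => image_eq_zero_of_notMem_tsupport hx
  have hηcs : HasCompactSupport (fun y => χ y • θ' y) := by
    refine HasCompactSupport.intro (K := tsupport χ) hχ.2 (fun x hx => ?_)
    rw [zχ x hx, zero_smul]
  have zχ' : ∀ x, x ∉ tsupport χ → fderiv ℝ χ x = 0 := by
    intro x hx
    by_contra hne
    exact hx (support_fderiv_subset (𝕜 := ℝ) (f := χ) hne)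
  have bo := hBo n g Γ hg hc hsec f ε hf hH (fun y => χ y • θ' y) hη hηcs
  have cN : Continuous (fun x => N2 g Γ (fun y => χ y • θ' y) x) := by
    simp only [N2_eq]
    exact hu2 _ _ (cB_cont Γ hΓ.continuous _ hη) (cB_cont Γ hΓ.continuous _ hη)
  have cD : Continuous (fun x => nB g x (dd (fun y => χ y • θ' y) x)) := by
    simp only [nBdd_eq]
    exact hu2 _ _ (dB_cont _ hη) (dB_cont _ hη)
  have cI : Continuous (fun x => ip g x (χ x • θ' x) (χ x • θ' x)) :=
    hu1 _ _ hη.continuous hη.continuous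
  have cdl := dl_cont hUt hg hgi hΓ f hf _ hη
  have zcf : ∀ x, x ∉ tsupport χ → cf Γ (fun y => χ y • θ' y) x = fun u v => 0 := by
    intro x hx
    funext u v
    rw [cf_smul Γ χ θ' hχ.1 hθ', zχ x hx, zχ' x hx]
    simp
  have zdd : ∀ x, x ∉ tsupport χ → dd (fun y => χ y • θ' y) x = fun u v => 0 := by
    intro x hx
    funext u v
    rw [dd_smul χ θ' hχ.1 hθ', zχ x hx, zχ' x hx]
    simp
  have iN : Integrable (fun x => N2 g Γ (fun y => χ y • θ' y) x *
      (Real.exp (-f x) * vol g x)) := by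
    refine Continuous.integrable_of_hasCompactSupport (cN.mul hW)
      (HasCompactSupport.intro (K := tsupport χ) hχ.2 (fun x hx => ?_))
    simp [N2, nB, trg, zcf x hx]
  have iI : Integrable (fun x => ε * ip g x (χ x • θ' x) (χ x • θ' x) *
      (Real.exp (-f x) * vol g x)) := by
    refine Continuous.integrable_of_hasCompactSupport ((continuous_const.mul cI).mul hW)
      (HasCompactSupport.intro (K := tsupport χ) hχ.2 (fun x hx => ?_))
    simp [ip, trg, zχ x hx]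
  have zdl : ∀ x, x ∉ tsupport χ → dl g Γ f (fun y => χ y • θ' y) x = 0 := by
    intro x hx
    rw [dl_smul g Γ f χ θ' hχ.1 hθ', zχ x hx, zχ' x hx]
    simp [ip, trg]
  have iD : Integrable (fun x => (nB g x (dd (fun y => χ y • θ' y) x) / 2 +
      dl g Γ f (fun y => χ y • θ' y) x ^ 2) * (Real.exp (-f x) * vol g x)) := by
    refine Continuous.integrable_of_hasCompactSupport
      (((cD.div_const 2).add (cdl.pow 2)).mul hW)
      (HasCompactSupport.intro (K := tsupport χ) hχ.2 (fun x hx => ?_))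
    rw [zdl x hx, zdd x hx]
    simp [nB, trg]
  -- on K
  have s1 : ∫ x in K, N2 g Γ θ' x * (Real.exp (-f x) * vol g x) =
      ∫ x in K, N2 g Γ (fun y => χ y • θ' y) x * (Real.exp (-f x) * vol g x) := by
    refine setIntegral_congr_fun hK.measurableSet (fun x hx => ?_)
    have hx1 := hχ1 x hx
    have hx2 : fderiv ℝ χ x = 0 := by
      refine IsLocalMax.fderiv_eq_zero (Filter.Eventually.of_forall fun y => ?_)
      rw [hx1]; exact (hχ01 y).2
    have hx3 : cf Γ (fun y => χ y • θ' y) x = cf Γ θ' x := by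
      funext u v
      rw [cf_smul Γ χ θ' hχ.1 hθ', hx1, hx2]
      simp
    simp only [N2, hx3]
  have s2 : ∫ x in K, N2 g Γ (fun y => χ y • θ' y) x * (Real.exp (-f x) * vol g x) ≤
      ∫ x, N2 g Γ (fun y => χ y • θ' y) x * (Real.exp (-f x) * vol g x) := by
    refine setIntegral_le_integral iN (ae_of_all _ fun x => ?_)
    refine mul_nonneg ?_ (hWpos x)
    have h := inb1 x (cB Γ (fun y => χ y • θ' y) x)
    have e : N2 g Γ (fun y => χ y • θ' y) x =
        nB g x (fun u v => cB Γ (fun y => χ y • θ' y) x u v) := N2_eq g Γ _ x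
    rw [e]
    exact h
  have s3 : ∫ x, N2 g Γ (fun y => χ y • θ' y) x * (Real.exp (-f x) * vol g x) ≤
      ∫ x, ((nB g x (dd (fun y => χ y • θ' y) x) / 2 +
      dl g Γ f (fun y => χ y • θ' y) x ^ 2) * (Real.exp (-f x) * vol g x) +
      ε * ip g x (χ x • θ' x) (χ x • θ' x) * (Real.exp (-f x) * vol g x)) := by
    have h1 := integral_sub iN iI
    have h2 : ∫ x, (N2 g Γ (fun y => χ y • θ' y) x - ε * ip g x (χ x • θ' x) (χ x • θ' x)) *
        (Real.exp (-f x) * vol g x) = ∫ x, (N2 g Γ (fun y => χ y • θ' y) x *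
        (Real.exp (-f x) * vol g x) - ε * ip g x (χ x • θ' x) (χ x • θ' x) *
        (Real.exp (-f x) * vol g x)) := by
      refine integral_congr_ae (ae_of_all _ fun x => ?_)
      simp only
      ring
    rw [integral_add iD iI]
    rw [h2, h1] at bo
    linarith
  have s4 : ∫ x, ((nB g x (dd (fun y => χ y • θ' y) x) / 2 +
      dl g Γ f (fun y => χ y • θ' y) x ^ 2) * (Real.exp (-f x) * vol g x) +
      ε * ip g x (χ x • θ' x) (χ x • θ' x) * (Real.exp (-f x) * vol g x)) =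
      ∫ x in K ∪ tsupport χ, ((nB g x (dd (fun y => χ y • θ' y) x) / 2 +
      dl g Γ f (fun y => χ y • θ' y) x ^ 2) * (Real.exp (-f x) * vol g x) +
      ε * ip g x (χ x • θ' x) (χ x • θ' x) * (Real.exp (-f x) * vol g x)) := by
    refine (setIntegral_eq_integral_of_forall_compl_eq_zero fun x hx => ?_).symm
    have hx' : x ∉ tsupport χ := fun h => hx (Or.inr h)
    rw [zdl x hx', zdd x hx', zχ x hx']
    simp [nB, trg, ip]
  -- the integrals over L
  have J1 : IntegrableOn (fun x => nB g x (fun u v => P x u v) / 2 *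
      (Real.exp (-f x) * vol g x)) (K ∪ tsupport χ) := by
    have h := (hS.const_mul (1 / 2)).integrableOn (s := K ∪ tsupport χ)
    refine h.congr_fun (fun x _ => ?_) hL.measurableSet
    simp only
    ring
  have J1' : Integrable (fun x => nB g x (fun u v => P x u v) / 2 *
      (Real.exp (-f x) * vol g x)) := by
    refine (hS.const_mul (1 / 2)).congr (ae_of_all _ fun x => ?_)
    simp only
    ring
  have J2 : IntegrableOn (fun x => Real.exp (-f x) * vol g x) (K ∪ tsupport χ) :=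
    hW.continuousOn.integrableOn_compact hL
  have J3 : IntegrableOn (fun x => ip g x (θ x) (θ x) * (Real.exp (-f x) * vol g x))
      (K ∪ tsupport χ) := hT.integrableOn
  have cdl' := dl_cont hUt hg hgi hΓ f hf _ hθ'
  have J5 : IntegrableOn (fun x => dl g Γ f θ' x ^ 2 * (Real.exp (-f x) * vol g x))
      (K ∪ tsupport χ) :=
    ((cdl'.pow 2).mul hW).continuousOn.integrableOn_compact hL
  obtain ⟨iG, eG⟩ := int5 J1 J2 J3 J4 J5 ((1 + s) ^ 2) ((1 + s) * (1 + 1 / s) * κ₂ / 2)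
    ((ε + (3 + 1 / s) * t ^ 2) * (1 + s)) ((ε + (3 + 1 / s) * t ^ 2) * (1 + 1 / s)) 2
  have s5 := setIntegral_mono_on (iD.add iI).integrableOn iG hL.measurableSet (fun x hx => ?_)
  rotate_left
  · have h := lim_ptw (Γ := Γ) hIna hInb hg f χ θ' hχ.1 hθ' x (hχ01 x).1 (hχ01 x).2 t ht0.le
      (fun v => hχd x v) (P x) s κ₂ ε hs0 (p2 x hx) hε (θ x)
    have h1 := mul_le_mul_of_nonneg_right h (hWpos x)
    have h2 : ip g x (θ' x - θ x) (θ' x - θ x) * (Real.exp (-f x) * vol g x) ≤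
        ip g x (θ' x - θ x) (θ' x - θ x) * vol g x :=
      mul_le_mul_of_nonneg_left (hWle x) (ina1 x _)
    have h3 : 0 ≤ (ε + (3 + 1 / s) * t ^ 2) * (1 + 1 / s) := by positivity
    have h4 := mul_le_mul_of_nonneg_left h2 h3
    refine le_trans (le_of_eq ?_) (le_trans h1 ?_)
    · simp only [Pi.add_apply]; ring
    · linarith
  have b1 : ∫ x in K ∪ tsupport χ, nB g x (fun u v => P x u v) / 2 *
      (Real.exp (-f x) * vol g x) ≤ S := by
    rw [← hSd]
    exact setIntegral_le_integral J1' (ae_of_all _ fun x =>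
      mul_nonneg (div_nonneg (inb1 x _) (by norm_num)) (hWpos x))
  have b3 : ∫ x in K ∪ tsupport χ, ip g x (θ x) (θ x) * (Real.exp (-f x) * vol g x) ≤ T := by
    rw [← hTd]
    exact setIntegral_le_integral hT (ae_of_all _ fun x => mul_nonneg (ina1 x _) (hWpos x))
  rw [eG, hVd] at s5
  have c1 := mul_le_mul_of_nonneg_left b1 (show (0 : ℝ) ≤ (1 + s) ^ 2 by positivity)
  have c3 := mul_le_mul_of_nonneg_left b3
    (show (0 : ℝ) ≤ (ε + (3 + 1 / s) * t ^ 2) * (1 + s) by positivity)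
  have c4 := mul_le_mul_of_nonneg_left p1
    (show (0 : ℝ) ≤ (ε + (3 + 1 / s) * t ^ 2) * (1 + 1 / s) by positivity)
  have c5 := mul_le_mul_of_nonneg_left p3 (show (0 : ℝ) ≤ 2 by norm_num)
  have d1 : (1 + s) ^ 2 * S ≤ S + 3 * s * S := by
    linarith [mul_nonneg (mul_nonneg hs0.le hS0) (sub_nonneg.2 hs1)]
  have d2 : (3 + 1 / s) * t ^ 2 * (1 + s) * T ≤ t * ((3 + 1 / s) * ((1 + s) * T)) := by
    have h1 : t ^ 2 ≤ t := by linarith [mul_nonneg ht0.le (sub_nonneg.2 ht1)]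
    have h2 : 0 ≤ (3 + 1 / s) * ((1 + s) * T) := by positivity
    linarith [mul_le_mul_of_nonneg_right h1 h2]
  have d3 : (ε + (3 + 1 / s) * t ^ 2) * (1 + s) * T =
      ε * T + s * (ε * T) + (3 + 1 / s) * t ^ 2 * (1 + s) * T := by ring
  simp only [Pi.add_apply] at s5
  rw [s1]
  refine le_trans s2 (le_trans s3 ?_)
  rw [s4]
  refine le_trans s5 ?_
  have f1 : (1 + s) * (1 + 1 / s) * κ₂ / 2 * V +
      (ε + (3 + 1 / s) * t ^ 2) * (1 + 1 / s) * κ₂ + 2 * κ₂ ≤ κ / 3 := by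
    have f2 : κ₂ * ((ε + (3 + 1 / s) * t ^ 2) * (1 + 1 / s) +
        (1 + s) * (1 + 1 / s) * V / 2 + 3) = (1 + s) * (1 + 1 / s) * κ₂ / 2 * V +
      (ε + (3 + 1 / s) * t ^ 2) * (1 + 1 / s) * κ₂ + 3 * κ₂ := by ring
    rw [f2] at hk2
    linarith
  linarith [hs2, ht2, f1, c1, c3, c4, c5, d1, d2, d3]

end Pool.Agent.Helper86.LH
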